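import Pool.Agent.helper52.WP.SpecB

set_option autoImplicit false

open Complex Metric Set Filter Topology MeasureTheory
open V3S (UF)
open WP
open PPS (pre TT fd)
open XPS (Df er)
open Pool.Agent.helper16.Multibrot

noncomputable section

namespace WPB

theorem PRE (hLNA : LNA_stmt) (hLOC : LOC_stmt) (hCB1 : WPC.CB1_stmt) : PRE_stmt := by
  intro n c C ε k w ρ hn hc hC hε hε1 hG
  obtain ⟨hw4, hρ4⟩ := hLOC n c C ε k w ρ hn hc (by linarith) hG
  have hρ := hG.rho
  have hC0 : (0 : ℝ) < C := by linarith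
  set q : ℝ := 1 / (4 * C) with hq
  have hq0 : 0 < q := by positivity
  have hq4 : q ≤ 1 / 4 := by
    rw [hq, div_le_div_iff₀ (by positivity) (by norm_num)]; linarith
  -- the three points
  set a : Fin 3 → ℂ := ![0, (q : ℂ), -(q : ℂ)] with ha
  have ha0 : a 0 = 0 := rfl
  have ha1 : a 1 = (q : ℂ) := rfl
  have ha2 : a 2 = -(q : ℂ) := rfl
  have hqn : ‖(q : ℂ)‖ = q := by rw [Complex.norm_real, Real.norm_of_nonneg hq0.le]
  have han : ∀ i, ‖a i‖ ≤ q := by
    intro i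
    fin_cases i
    · show ‖a 0‖ ≤ q
      rw [ha0, norm_zero]; exact hq0.le
    · show ‖a 1‖ ≤ q
      rw [ha1, hqn]
    · show ‖a 2‖ ≤ q
      rw [ha2, norm_neg, hqn]
  have hsep : ∀ i l, i ≠ l → q ≤ ‖a i - a l‖ := by
    have h2 : ‖(q : ℂ) - -(q : ℂ)‖ = 2 * q := by
      rw [sub_neg_eq_add, ← two_mul, norm_mul, hqn]; norm_num
    have h2' : ‖-(q : ℂ) - (q : ℂ)‖ = 2 * q := by
      rw [← norm_neg, neg_sub, h2]
    intro i l hil
    fin_cases i <;> fin_cases l
    · exact absurd rfl hil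
    · show q ≤ ‖a 0 - a 1‖
      rw [ha0, ha1, zero_sub, norm_neg, hqn]
    · show q ≤ ‖a 0 - a 2‖
      rw [ha0, ha2, zero_sub, norm_neg, norm_neg, hqn]
    · show q ≤ ‖a 1 - a 0‖
      rw [ha0, ha1, sub_zero, hqn]
    · exact absurd rfl hil
    · show q ≤ ‖a 1 - a 2‖
      rw [ha1, ha2, h2]; linarith
    · show q ≤ ‖a 2 - a 0‖
      rw [ha0, ha2, sub_zero, norm_neg, hqn]
    · show q ≤ ‖a 2 - a 1‖
      rw [ha1, ha2, h2']; linarith
    · exact absurd rfl hil
  -- the map `F`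
  set D₀ : Dat := ⟨k, GR.fp n c, w, ρ, a, 0, 0, 0, 0, 0⟩ with hD₀
  obtain ⟨hsg, hsgn, hxz, hzx, -, -, hdF, -, hdd, hzF, -⟩ := hCB1 D₀ hρ
  set F : ℂ → ℂ := D₀.F k with hF
  have hFd : Differentiable ℂ F := hdF k
  have hnear : ∀ x ∈ ball (0 : ℂ) 1, ‖F x - x‖ ≤ ε := by
    intro x hx
    have h1 : D₀.zz x ∈ ball w ρ := by
      rw [mem_ball, dist_eq_norm]
      have : D₀.zz x - w = D₀.sg * x := by
        show w + D₀.sg * x - w = _
        ring
      rw [this, norm_mul, hsgn]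
      have hx1 : ‖x‖ < 1 := by simpa using hx
      calc ρ * ‖x‖ < ρ * 1 := mul_lt_mul_of_pos_left hx1 hρ
        _ = ρ := mul_one _
    have h2 := hG.near _ h1
    have h3 : D₀.zz (F x) - D₀.zz x = D₀.sg * (F x - x) := by
      show (w + D₀.sg * F x) - (w + D₀.sg * x) = _
      ring
    have h4 : D₀.zz (F x) = it (GR.fp n c) k (D₀.zz x) := hzF k x
    rw [← h4, h3, norm_mul, hsgn] at h2
    have h5 : ρ * ‖F x - x‖ ≤ ρ * ε := by
      calc ρ * ‖F x - x‖ ≤ ε * ρ := h2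
        _ = ρ * ε := mul_comm _ _
    exact le_of_mul_le_mul_left h5 hρ
  have hder : ∀ i, deriv F (a i) ≠ 0 ∧ ‖1 / deriv F (a i) - 1‖ ≤ 8 * ε := by
    intro i
    have hai : ‖a i‖ ≤ 1 / 4 := (han i).trans hq4
    have h1 : ‖deriv (fun x => F x - x) (a i)‖ ≤ ε / (1 / 2) := by
      apply Complex.norm_deriv_le_of_forall_mem_sphere_norm_le (by norm_num)
      · exact (hFd.sub differentiable_id).diffContOnCl
      · intro z hz
        apply hnear
        rw [mem_sphere, dist_eq_norm] at hz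
        rw [mem_ball_zero_iff]
        calc ‖z‖ = ‖(z - a i) + a i‖ := by ring_nf
          _ ≤ ‖z - a i‖ + ‖a i‖ := norm_add_le _ _
          _ ≤ 1 / 2 + 1 / 4 := by rw [hz]; linarith
          _ < 1 := by norm_num
    have h2 : deriv (fun x => F x - x) (a i) = deriv F (a i) - 1 := by
      have := ((hFd (a i)).hasDerivAt.sub (hasDerivAt_id (a i))).deriv
      simpa using this
    rw [h2] at h1
    set L := deriv F (a i) with hL
    have h3 : ‖L - 1‖ ≤ 2 * ε := by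
      calc ‖L - 1‖ ≤ ε / (1 / 2) := h1
        _ = 2 * ε := by ring
    have h4 : 1 / 2 ≤ ‖L‖ := by
      have : ‖(1 : ℂ)‖ ≤ ‖L‖ + ‖L - 1‖ := by
        calc ‖(1 : ℂ)‖ = ‖L - (L - 1)‖ := by ring_nf
          _ ≤ ‖L‖ + ‖L - 1‖ := norm_sub_le _ _
      rw [norm_one] at this
      linarith
    have h5 : L ≠ 0 := by
      intro h
      rw [h, norm_zero] at h4
      linarith
    refine ⟨h5, ?_⟩
    have h6 : 1 / L - 1 = -(L - 1) / L := by
      field_simp
      ring
    rw [h6, norm_div, norm_neg]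
    have hL0 : 0 < ‖L‖ := by linarith
    rw [div_le_iff₀ hL0]
    calc ‖L - 1‖ ≤ 2 * ε := h3
      _ ≤ 8 * ε * (1 / 2) := by linarith
      _ ≤ 8 * ε * ‖L‖ := by
        apply mul_le_mul_of_nonneg_left h4; linarith
  -- the coefficients
  obtain ⟨γ, hγ1, hγ2, hγ, hγm⟩ := hLNA (fun i => 1 - 1 / deriv F (a i))
    (fun i => a i - 1 / deriv F (a i) * F (a i))
  refine ⟨a, γ, hγm, han, hsep, ?_⟩
  intro rad E s om
  have hFF : ∀ x, (⟨k, GR.fp n c, w, ρ, a, γ, rad, E, s, om⟩ : Dat).F k x = F x := fun x => rfl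
  exact
    { hn := hn
      hc := hc
      hf := rfl
      rho := hρ
      rho4 := hρ4
      w4 := hw4.le
      e0 := hε
      e1 := hε1
      near := fun x hx => hnear x hx
      der := fun i => hder i
      pt := fun i => (han i).trans hq4
      gam := hγ
      l1 := hγ1
      l2 := hγ2 }

end WPB
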